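import Pool.Agent.Work.MP_9d788c_ag.Final

/-!
The maximal number `B n` of isolated real projective zeros of a nonnegative ternary form of
degree `n` satisfies `B n / n ^ 2 → 3 / 8` along the even integers.
-/

namespace Pool.Agent.Results.MP_9d788c_ag.Limit

open MvPolynomial

/-- The finite numbers of real projective zeros of nonnegative ternary forms of degree `n`. -/
def Counts (n : ℕ) : Set ℕ :=
  {N | ∃ p : MvPolynomial (Fin 3) ℝ, p.IsHomogeneous n ∧ (∀ v : Fin 3 → ℝ, 0 ≤ eval v p) ∧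
    {v : Projectivization ℝ (Fin 3 → ℝ) | eval v.rep p = 0}.Finite ∧
    {v : Projectivization ℝ (Fin 3 → ℝ) | eval v.rep p = 0}.ncard = N}

/-- The largest such number. -/
noncomputable def B (n : ℕ) : ℕ := sSup (Counts n)

theorem result :
    (∀ k : ℕ, (Counts (2 * k)).Nonempty ∧ BddAbove (Counts (2 * k))) ∧
    Filter.Tendsto (fun k : ℕ => (B (2 * k) : ℝ) / ((2 * k : ℕ) : ℝ) ^ 2) Filter.atTop
      (nhds (3 / 8)) := by
  have hne : ∀ k : ℕ, (Counts (2 * k)).Nonempty := fun k => ⟨0, MP9d.pcount_zero k⟩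
  have hbdd : ∀ k : ℕ, BddAbove (Counts (2 * k)) := fun k => MP9d.pcount_bdd k
  refine ⟨fun k => ⟨hne k, hbdd k⟩, ?_⟩
  have := MP9d.limit_aux (fun k => B (2 * k)) (fun k N hN => le_csSup (hbdd k) hN)
    (fun k => Nat.sSup_mem (hne k) (hbdd k))
  simpa using this

end Pool.Agent.Results.MP_9d788c_ag.Limit
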